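import Pool.Agent.Helper776.Complete

set_option autoImplicit false

/-!
Additive cubes over finite sets of natural numbers: complete answer.
-/

namespace Pool.Agent.Results.MP_c93f48_co.AvoidableIffThreeLetters

open Pool.Agent.Helper776

/-- For every finite set A of natural numbers: there is an infinite word over A without additive
cubes if and only if A has at least three elements. -/
theorem result :
    ∀ A : Finset ℕ,
      ((∃ w : ℕ → ℕ, (∀ n, w n ∈ A) ∧
        ∀ p L : ℕ, 0 < L →
          ¬ ((∑ k ∈ Finset.range L, w (p + k)) = (∑ k ∈ Finset.range L, w (p + L + k)) ∧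
             (∑ k ∈ Finset.range L, w (p + L + k)) =
               (∑ k ∈ Finset.range L, w (p + 2 * L + k)))) ↔ 3 ≤ A.card) := by
  intro A
  have hB : (A.map Nat.castEmbedding : Finset ℤ).card = A.card := Finset.card_map _
  have mem : ∀ x : ℤ, x ∈ (A.map Nat.castEmbedding : Finset ℤ) ↔ ∃ n ∈ A, (n : ℤ) = x := by
    intro x; simp
  constructor
  · rintro ⟨w, hw, hc⟩
    by_contra hlt
    refine Assemble.card_le_two_not (A.map Nat.castEmbedding) (by omega) (fun n => (w n : ℤ))
      (fun n => (mem _).2 ⟨w n, hw n, rfl⟩) ?_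
    intro p L hL h
    apply hc p L hL
    dsimp only at h
    exact ⟨by exact_mod_cast h.1, by exact_mod_cast h.2⟩
  · intro h3
    obtain ⟨w, hw, hc⟩ := Complete.set_full (A.map Nat.castEmbedding) (by omega)
    have hw' : ∀ n, ∃ m ∈ A, (m : ℤ) = w n := fun n => (mem _).1 (hw n)
    choose v hv hvw using hw'
    refine ⟨v, hv, fun p L hL h => hc p L hL ?_⟩
    simp only [← hvw]
    exact ⟨by exact_mod_cast h.1, by exact_mod_cast h.2⟩

end Pool.Agent.Results.MP_c93f48_co.AvoidableIffThreeLetters
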